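import Pool.Agent.H560R3.GB.Fin

/-!
# The Hardy-Littlewood formula for the number of Goldbach representations of almost all members of
every family of nearly minimal additive energy

Definitions: `Pool.Agent.H560R3.GB.Defs` (`g n`: the number of ordered representations of `n` as a
sum of two primes; `HL n = 2 C₂ ∏_{p ∣ n, p > 2} (p - 1) / (p - 2) * n / log^2 n`, the prediction of
Hardy and Littlewood; `exceptions ε x s`: the number of `m ≤ x` for which
`|g (s m) - HL (s m)| ≤ ε HL (s m)` fails; `energy h x s`: the additive energy of order `h` of the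
family `s 1, ..., s x`; `reps h x s t`: the number of representations of `t` as a sum of `h` members).

The proof uses the exponential sums of the primes and of their sieve model, the bilinear estimate and
the main term of the starting files `Pool/Agent/H373R2/T7/`.
-/

set_option autoImplicit false

namespace Pool.Agent.Results.MP_dd84fd_nt.NearMinimalEnergy

open Finset Pool.Agent.H560R3.GB

lemma energy_eq (h x : ℕ) (s : ℕ → ℕ) :
    Pool.Agent.H373R2.T7.energy h x (fun m => (s m : ℤ)) = energy h x s := by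
  unfold energy Pool.Agent.H373R2.T7.energy
  congr 1
  apply filter_congr
  intro q _
  change (∑ i, ((s (q.1 i) : ℕ) : ℤ) = ∑ i, ((s (q.2 i) : ℕ) : ℤ)) ↔ _
  constructor
  · intro h; exact_mod_cast h
  · intro h; exact_mod_cast h

lemma energy_le (h x J : ℕ) (s : ℕ → ℕ) (hJ : ∀ t, reps h x s t ≤ J) : energy h x s ≤ x ^ h * J := by
  unfold energy
  rw [card_filter, sum_product]
  calc ∑ v ∈ Fintype.piFinset fun _ : Fin h => Icc 1 x, ∑ w ∈ Fintype.piFinset fun _ : Fin h => Icc 1 x,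
        (if ∑ i, s (v i) = ∑ i, s (w i) then 1 else 0) ≤
      ∑ _v ∈ Fintype.piFinset fun _ : Fin h => Icc 1 x, J := by
        apply sum_le_sum
        intro v _
        rw [← card_filter]
        refine le_trans (le_of_eq ?_) (hJ (∑ i, s (v i)))
        unfold reps
        congr 1
        apply filter_congr
        intro w _
        exact eq_comm
    _ = x ^ h * J := by
        rw [sum_const, Fintype.card_piFinset, prod_const, card_univ, Fintype.card_fin, Nat.card_Icc,
          smul_eq_mul, Nat.add_sub_cancel]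

theorem first (h C U : ℕ) (hh : 1 ≤ h) (ε : ℝ) (hε : 0 < ε) :
    ∃ N₀ : ℕ, ∀ N : ℕ, N₀ ≤ N → ∀ (x : ℕ) (s : ℕ → ℕ),
      (∀ m ∈ Icc 1 x, Even (s m) ∧ 1 ≤ s m ∧ s m ≤ N) →
      (energy h x s : ℝ) * N ≤ Real.log N ^ C * (x : ℝ) ^ (2 * h) →
      (exceptions ε x s : ℝ) ≤ x / Real.log N ^ U := by
  obtain ⟨N₀, h0⟩ := main h C U hh ε hε
  refine ⟨N₀, fun N hN x s hs hE => ?_⟩
  obtain ⟨S, h1, h2⟩ := h0 N hN x s hs (by rw [energy_eq]; exact hE)
  refine le_trans ?_ h1
  unfold exceptions HL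
  have h3 : (Icc 1 x).filter (fun m => ¬ |(g (s m) : ℝ) - sing (s m) * (s m / Real.log (s m) ^ 2)| ≤
      ε * (sing (s m) * (s m / Real.log (s m) ^ 2))) ⊆ S := by
    intro m hm
    rw [mem_filter] at hm
    by_contra hc
    exact hm.2 (h2 m hm.1 hc)
  exact_mod_cast card_le_card h3

/-- Let `h ≥ 1`, `C`, `U` and `ε > 0` be fixed, and let `N` be large.

* Let `s 1, ..., s x` be any family of even integers in `[1, N]` whose additive energy of order `h` is at
  most `log^C N` times `x ^ (2 h) / N`. Then `|g(n) - HL(n)| ≤ ε HL(n)` for all but at most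
  `x / log^U N` of the members `n` of the family.
* In particular this holds if no integer has more than `J` representations as a sum of `h` members
  (a `B_h[J]`-family; for `h = 2`, `J = 2` and distinct members a Sidon set) and
  `x ^ h ≥ N / log^C N`. -/
theorem result (h C U : ℕ) (hh : 1 ≤ h) (ε : ℝ) (hε : 0 < ε) :
    (∃ N₀ : ℕ, ∀ N : ℕ, N₀ ≤ N → ∀ (x : ℕ) (s : ℕ → ℕ),
      (∀ m ∈ Icc 1 x, Even (s m) ∧ 1 ≤ s m ∧ s m ≤ N) →
      (energy h x s : ℝ) * N ≤ Real.log N ^ C * (x : ℝ) ^ (2 * h) →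
      (exceptions ε x s : ℝ) ≤ x / Real.log N ^ U) ∧
    (∀ J : ℕ, ∃ N₀ : ℕ, ∀ N : ℕ, N₀ ≤ N → ∀ (x : ℕ) (s : ℕ → ℕ),
      (∀ m ∈ Icc 1 x, Even (s m) ∧ 1 ≤ s m ∧ s m ≤ N) →
      (∀ t, reps h x s t ≤ J) → (N : ℝ) ≤ Real.log N ^ C * (x : ℝ) ^ h →
      (exceptions ε x s : ℝ) ≤ x / Real.log N ^ U) := by
  refine ⟨first h C U hh ε hε, fun J => ?_⟩
  obtain ⟨N₀, h0⟩ := first h (C + 1) U hh ε hε
  obtain ⟨N₁, h1⟩ := Pool.Agent.H373R2.T7.ev_L' (J + 1)
  refine ⟨N₀ + N₁ + 1, fun N hN x s hs hJ hx => ?_⟩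
  apply h0 N (by omega) x s hs
  have hL := h1 N (by omega)
  have hJ0 : (0 : ℝ) ≤ J := Nat.cast_nonneg _
  have hN0 : (0 : ℝ) ≤ N := Nat.cast_nonneg _
  have hx0 : (0 : ℝ) ≤ (x : ℝ) ^ h := by positivity
  have h2 : (energy h x s : ℝ) ≤ (x : ℝ) ^ h * J := by exact_mod_cast energy_le h x J s hJ
  have hL0 : 0 ≤ Real.log N := by linarith
  calc (energy h x s : ℝ) * N ≤ ((x : ℝ) ^ h * J) * (Real.log N ^ C * (x : ℝ) ^ h) :=
        mul_le_mul h2 hx hN0 (mul_nonneg hx0 hJ0)
    _ = J * (Real.log N ^ C * (x : ℝ) ^ (2 * h)) := by ring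
    _ ≤ Real.log N * (Real.log N ^ C * (x : ℝ) ^ (2 * h)) := by
        apply mul_le_mul_of_nonneg_right (by linarith) (by positivity)
    _ = Real.log N ^ (C + 1) * (x : ℝ) ^ (2 * h) := by ring

end Pool.Agent.Results.MP_dd84fd_nt.NearMinimalEnergy
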